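import Mathlib

namespace Pool.Agent.Results.MP_66c699_al.Torsion
open Equiv

/-- Automorphisms of the rooted tree of words: permutations preserving length and prefix order. -/
def IsAut {d : ℕ} (g : Perm (List (Fin d))) : Prop :=
  (∀ v, (g v).length = v.length) ∧ ∀ v w, g v <+: g w ↔ v <+: w

/-- Membership in the group of finite type defined by the pattern group `P` of depth `D`: every
section of `g` acts on the words of length at most `D` like an element of `P`. -/
def InG {d D : ℕ} (P : Subgroup (Perm {w : List (Fin d) // w.length ≤ D}))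
    (g : Perm (List (Fin d))) : Prop :=
  IsAut g ∧ ∀ v, ∃ p ∈ P, ∀ w : {w : List (Fin d) // w.length ≤ D}, g (v ++ w.1) = g v ++ (p w).1

lemma orb {α Q : Type*} [Fintype α] [CommGroup Q] (σ : Perm α) (F : α → Q)
    (h1 : ∀ a, F (σ a) = F a) (h2 : ∀ a s, (σ ^ s) a = a → F a ^ s = 1) : ∏ a, F a = 1 := by
  classical
  rw [← Finset.prod_fiberwise Finset.univ
    (fun a => (Quotient.mk'' a : MulAction.orbitRel.Quotient (Subgroup.zpowers σ) α))]
  refine Finset.prod_eq_one fun q _ => ?_
  obtain ⟨a, rfl⟩ := Quotient.exists_rep q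
  have h3 : ∀ n : ℕ, F ((σ ^ n) a) = F a := fun n => by
    induction n with
    | zero => rfl
    | succ n ih => rw [pow_succ', Perm.mul_apply, h1, ih]
  have h4 : ∀ b, (Quotient.mk'' b : MulAction.orbitRel.Quotient (Subgroup.zpowers σ) α) = ⟦a⟧ ↔
      b ∈ MulAction.orbit (Subgroup.zpowers σ) a := fun b => Quotient.eq''
  rw [Finset.prod_congr rfl (g := fun _ => F a), Finset.prod_const]
  · refine h2 a _ ?_
    rw [← Fintype.card_subtype, Fintype.card_congr (Equiv.subtypeEquivRight h4)]
    have := MulAction.minimalPeriod_eq_card σ a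
    have h5 := Function.iterate_minimalPeriod (f := (σ • ·)) (x := a)
    rw [this, smul_iterate] at h5
    convert h5 using 1
    rfl
  · intro b hb
    obtain ⟨⟨g, hg⟩, rfl⟩ := (h4 b).1 (Finset.mem_filter.1 hb).2
    obtain ⟨n, rfl⟩ := mem_powers_iff_mem_zpowers.2 hg
    exact h3 n

open Classical in
noncomputable def res {V : Type*} (g : Perm V) (S : Set V) : Perm V :=
  if h : ∀ x, g x ∈ S ↔ x ∈ S then Perm.ofSubtype (g.subtypePerm h) else 1

lemma res1 {V : Type*} {g : Perm V} {S : Set V} (h : ∀ x, g x ∈ S ↔ x ∈ S) {x : V} (hx : x ∈ S) :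
    res g S x = g x := by
  classical rw [res, dif_pos h, Perm.ofSubtype_apply_of_mem _ hx]; rfl

lemma res2 {V : Type*} (g : Perm V) {S : Set V} {x : V} (hx : x ∉ S) : res g S x = x := by
  classical
  rw [res]; split_ifs
  · exact Perm.ofSubtype_apply_of_not_mem _ hx
  · rfl

variable {d D : ℕ} {P : Subgroup (Perm {w : List (Fin d) // w.length ≤ D})}

lemma cone_inv {g : Perm (List (Fin d))} (hg : IsAut g) {v : List (Fin d)} (hv : g v = v) :
    ∀ x, g x ∈ {x | v <+: x} ↔ x ∈ {x | v <+: x} := fun x => by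
  have := hg.2 v x
  rwa [hv] at this

lemma res_mem (hD : 1 ≤ D) {g : Perm (List (Fin d))} (hg : InG P g) {v : List (Fin d)}
    (hv : ∀ w : List (Fin d), w.length ≤ D - 1 → g (v ++ w) = v ++ w) :
    InG P (res g {x | v <+: x}) ∧
      ∀ w : List (Fin d), w.length = D - 1 → res g {x | v <+: x} w = w := by
  have h0 : g v = v := by simpa using hv [] (by simp)
  have hi := cone_inv hg.1 h0
  refine ⟨⟨⟨fun x => ?_, fun x y => ?_⟩, fun u => ?_⟩, fun w hw => ?_⟩
  · by_cases h : v <+: x
    · rw [res1 hi h, hg.1.1]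
    · rw [res2 g h]
  · by_cases h : v <+: x
    · rw [res1 hi h]
      by_cases h' : v <+: y
      · rw [res1 hi h', hg.1.2]
      · rw [res2 g h']
        exact iff_of_false (fun k => h' (((hi x).2 h).trans k)) fun k => h' (h.trans k)
    · rw [res2 g h]
      by_cases h' : v <+: y
      · rw [res1 hi h']
        have key : ∀ z, v <+: z → x <+: z → x <+: v := fun z k1 k2 =>
          (List.prefix_or_prefix_of_prefix k1 k2).resolve_left h
        exact ⟨fun k => (key _ ((hi y).2 h') k).trans h', fun k => (key _ h' k).trans ((hi y).2 h')⟩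
      · rw [res2 g h']
  · by_cases h : v <+: u
    · obtain ⟨p, hp, e⟩ := hg.2 u
      exact ⟨p, hp, fun w => by
        rw [res1 hi h, res1 hi (h.trans (List.prefix_append _ _)), e]⟩
    · refine ⟨1, one_mem _, fun w => ?_⟩
      rw [res2 g (x := u) h]
      by_cases h' : v <+: u ++ w.1
      · rw [res1 hi h']
        have h2 : ¬ v.length ≤ u.length := fun k =>
          h (List.prefix_of_prefix_length_le h' (List.prefix_append _ _) k)
        obtain ⟨z, hz⟩ := h'
        have h3 := congrArg List.length hz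
        simp only [List.length_append] at h3
        have := w.2
        rw [Perm.one_apply, ← hz, hv z (by omega)]
      · exact res2 g h'
  · by_cases h : v <+: w
    · rw [res1 hi h]
      obtain ⟨z, rfl⟩ := h
      exact hv z (by rw [← hw]; simp)
    · exact res2 g h

lemma pow_fix {h : Perm (List (Fin d))} (hg : InG P h) {v : List (Fin d)} (hv : h v = v)
    (w : List (Fin d)) (hw : w.length ≤ D) :
    (h ^ Nat.card (Perm {w : List (Fin d) // w.length ≤ D})) (v ++ w) = v ++ w := by
  obtain ⟨p, -, e⟩ := hg.2 v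
  have : ∀ n : ℕ, (h ^ n) (v ++ w) = v ++ ((p ^ n) ⟨w, hw⟩).1 := fun n => by
    induction n with
    | zero => rfl
    | succ n ih => rw [pow_succ', Perm.mul_apply, ih, e, hv, pow_succ', Perm.mul_apply]
  rw [this, pow_card_eq_one']; rfl

lemma main (hD : 1 ≤ D) (K : Subgroup (Perm (List (Fin d))))
    (hK : ∀ g, g ∈ K ↔ InG P g ∧ ∀ w : List (Fin d), w.length = D - 1 → g w = w)
    {Q : Type*} [CommGroup Q] (f : Perm (List (Fin d)) → Q)
    (hf : ∀ x ∈ K, ∀ y ∈ K, f (x * y) = f x * f y) (m : ℕ)
    (hm : ∀ x ∈ K, (∀ w : List (Fin d), w.length ≤ m → x w = w) → f x = 1) (n : ℕ) :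
    ∀ v : List (Fin d), m ≤ v.length + n → ∀ h ∈ K, h v = v →
      f (res (h ^ Nat.card (Perm {w : List (Fin d) // w.length ≤ D})) {x | v <+: x}) = 1 := by
  classical
  set N := Nat.card (Perm {w : List (Fin d) // w.length ≤ D})
  have hmem : ∀ v, ∀ h ∈ K, h v = v → res (h ^ N) {x | v <+: x} ∈ K := fun v h hh hv =>
    (hK _).2 (res_mem hD ((hK _).1 (pow_mem hh N)).1 fun w hw =>
      pow_fix ((hK _).1 hh).1 hv w (by omega))
  have f1 : f 1 = 1 := hm 1 (one_mem _) fun _ _ => rfl
  induction n with
  | zero =>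
    intro v hv h hh e
    refine hm _ (hmem v h hh e) fun w hw => ?_
    by_cases k : v <+: w
    · rw [← k.eq_of_length_le (by omega), res1 (cone_inv ((hK _).1 (pow_mem hh N)).1.1
        (Perm.pow_apply_eq_self_of_apply_eq_self e N)) (List.prefix_refl v),
        Perm.pow_apply_eq_self_of_apply_eq_self e N]
    · exact res2 _ k
  | succ n ih =>
    intro v hv h hh e
    have ha := ((hK _).1 hh).1.1
    have hg := ((hK _).1 (pow_mem hh N)).1
    have hfix := pow_fix ((hK _).1 hh).1 e
    set g := h ^ N with hgdef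
    let α := {u : List (Fin d) // v <+: u ∧ u.length = v.length + 1}
    have : Finite α := ((List.finite_length_eq (Fin d) (v.length + 1)).subset
      (t := {u | v <+: u ∧ u.length = v.length + 1}) fun u hu => hu.2).to_subtype
    have := Fintype.ofFinite α
    have hw : ∀ u : α, ∀ w : List (Fin d), w.length ≤ D - 1 → g (u.1 ++ w) = u.1 ++ w := by
      rintro ⟨_, ⟨z, rfl⟩, hz⟩ w hw
      simp only [List.length_append] at hz
      rw [List.append_assoc]
      exact hfix _ (by simp only [List.length_append]; omega)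
    have hu : ∀ u : α, g u.1 = u.1 := fun u => by simpa using hw u [] (by simp)
    have hi := fun u : α => cone_inv hg.1 (hu u)
    have hK' : ∀ u : α, res g {x | u.1 <+: x} ∈ K := fun u => (hK _).2 (res_mem hD hg (hw u))
    have hi' : ∀ s : Finset α, ∀ x, g x ∈ {x | ∃ u ∈ s, u.1 <+: x} ↔
        x ∈ {x | ∃ u ∈ s, u.1 <+: x} := fun s x =>
      exists_congr fun u => and_congr_right fun _ => hi u x
    have hprod : ∀ s : Finset α, res g {x | ∃ u ∈ s, u.1 <+: x} ∈ K ∧
        f (res g {x | ∃ u ∈ s, u.1 <+: x}) = ∏ u ∈ s, f (res g {x | u.1 <+: x}) := by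
      intro s
      induction s using Finset.induction_on with
      | empty =>
        have : res g {x | ∃ u ∈ (∅ : Finset α), u.1 <+: x} = 1 :=
          Equiv.ext fun x => res2 _ (by simp)
        rw [this]; exact ⟨one_mem _, f1⟩
      | insert u s hus ih' =>
        have : res g {x | ∃ t ∈ insert u s, t.1 <+: x} =
            res g {x | u.1 <+: x} * res g {x | ∃ t ∈ s, t.1 <+: x} := by
          ext1 x
          rw [Perm.mul_apply]
          by_cases k1 : ∃ t ∈ s, t.1 <+: x
          · obtain ⟨t, ht, k2⟩ := k1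
            rw [res1 (hi' s) ⟨t, ht, k2⟩, res1 (hi' _) ⟨t, Finset.mem_insert_of_mem ht, k2⟩,
              res2]
            intro k3
            have : u = t := Subtype.ext ((List.prefix_of_prefix_length_le ((hi u x).1 k3) k2
              (by rw [u.2.2, t.2.2])).eq_of_length (by rw [u.2.2, t.2.2]))
            exact hus (this ▸ ht)
          · rw [res2 g (S := {x | ∃ t ∈ s, t.1 <+: x}) k1]
            by_cases k2 : u.1 <+: x
            · rw [res1 (hi u) k2, res1 (hi' _) ⟨u, Finset.mem_insert_self _ _, k2⟩]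
            · rw [res2 g (S := {x | u.1 <+: x}) k2, res2]
              rintro ⟨t, ht, k3⟩
              rcases Finset.mem_insert.1 ht with rfl | ht
              · exact k2 k3
              · exact k1 ⟨t, ht, k3⟩
        rw [this, Finset.prod_insert hus, hf _ (hK' u) _ ih'.1, ih'.2]
        exact ⟨mul_mem (hK' u) ih'.1, rfl⟩
    have hv' : g v = v := by simpa using hfix [] (by simp)
    have e1 : res g {x | v <+: x} = res g {x | ∃ u ∈ (Finset.univ : Finset α), u.1 <+: x} := by
      ext1 x
      by_cases k1 : ∃ u ∈ (Finset.univ : Finset α), u.1 <+: x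
      · obtain ⟨u, k2, k3⟩ := k1
        rw [res1 (cone_inv hg.1 hv') (u.2.1.trans k3), res1 (hi' _) ⟨u, k2, k3⟩]
      · rw [res2 g (S := {x | ∃ u ∈ (Finset.univ : Finset α), u.1 <+: x}) k1]
        by_cases k2 : v <+: x
        · rw [res1 (cone_inv hg.1 hv') k2]
          obtain ⟨_ | ⟨a, z⟩, rfl⟩ := k2
          · simpa using hv'
          · exact absurd ⟨⟨v ++ [a], by simp⟩, Finset.mem_univ _, by simp⟩ k1
        · exact res2 g k2
    rw [e1, (hprod _).2]
    have hσ : ∀ u, (v <+: h u ∧ (h u).length = v.length + 1) ↔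
        (v <+: u ∧ u.length = v.length + 1) := fun u => by
      rw [ha.1]; exact and_congr_left fun _ => cone_inv ha e u
    refine orb (h.subtypePerm hσ) _ (fun u => ?_) fun u s hs => ?_
    · have e2 : res g {x | (h.subtypePerm hσ u).1 <+: x} * h = h * res g {x | u.1 <+: x} := by
        ext1 x
        rw [Perm.mul_apply, Perm.mul_apply]
        by_cases k : u.1 <+: x
        · rw [res1 (hi u) k, res1 (hi _) ((ha.2 _ _).2 k), ← Perm.mul_apply, ← Perm.mul_apply,
            hgdef, ← pow_succ, ← pow_succ']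
        · rw [res2 g (S := {x | u.1 <+: x}) k]
          exact res2 g (mt (ha.2 _ _).1 k)
      have := congrArg f e2
      rw [hf _ (hK' _) _ hh, hf _ hh _ (hK' _), mul_comm] at this
      exact mul_left_cancel this
    · have k1 : (h ^ s) u.1 = u.1 := by
        simpa [Perm.subtypePerm_pow] using congrArg Subtype.val hs
      have k2 := ih u.1 (by rw [u.2.2]; omega) _ (pow_mem hh s) k1
      have k3 : ∀ t : ℕ, res (g ^ t) {x | u.1 <+: x} ∈ K ∧
          f (res (g ^ t) {x | u.1 <+: x}) = f (res g {x | u.1 <+: x}) ^ t := fun t => by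
        have hit := fun t : ℕ => cone_inv ((hK _).1 (pow_mem (pow_mem hh N) t)).1.1
          (Perm.pow_apply_eq_self_of_apply_eq_self (hu u) t)
        induction t with
        | zero =>
          have : res (g ^ 0) {x | u.1 <+: x} = 1 := Equiv.ext fun x => by
            by_cases k : u.1 <+: x
            · exact res1 (hit 0) k
            · exact res2 _ k
          rw [this]; exact ⟨one_mem _, by simpa using f1⟩
        | succ t iht =>
          have : res (g ^ (t + 1)) {x | u.1 <+: x} =
              res (g ^ t) {x | u.1 <+: x} * res g {x | u.1 <+: x} := Equiv.ext fun x => by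
            rw [Perm.mul_apply]
            by_cases k : u.1 <+: x
            · rw [res1 (hit _) k, res1 (hi u) k, res1 (hit _) ((hi u x).2 k), pow_succ,
                Perm.mul_apply]
            · have k' : x ∉ {x | u.1 <+: x} := k
              rw [res2 _ k', res2 _ k', res2 _ k']
          rw [this, hf _ iht.1 _ (hK' u), iht.2, pow_succ]
          exact ⟨mul_mem iht.1 (hK' u), rfl⟩
      rw [← (k3 s).2, hgdef, ← pow_mul, mul_comm, pow_mul, k2]

theorem result (d D : ℕ) (hD : 1 ≤ D) (P : Subgroup (Perm {w : List (Fin d) // w.length ≤ D}))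
    (K : Subgroup (Perm (List (Fin d))))
    (hK : ∀ g, g ∈ K ↔ InG P g ∧ ∀ w : List (Fin d), w.length = D - 1 → g w = w) :
    ∃ N : ℕ, 0 < N ∧ ∀ k ∈ K, ∀ m : ℕ, ∃ c ∈ ⁅K, K⁆,
      ∀ w : List (Fin d), w.length ≤ m → c w = (k ^ N) w := by
  classical
  have : Finite {w : List (Fin d) // w.length ≤ D} := (List.finite_length_le (Fin d) D).to_subtype
  refine ⟨Nat.card (Perm {w : List (Fin d) // w.length ≤ D}), Nat.card_pos, fun k hk m => ?_⟩
  let S : Subgroup K :=
    { carrier := {x | ∀ w : List (Fin d), w.length ≤ m → x.1 w = w}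
      one_mem' := fun _ _ => rfl
      mul_mem' := fun h1 h2 w hw => by
        rw [Subgroup.coe_mul, Perm.mul_apply, h2 w hw, h1 w hw]
      inv_mem' := fun h1 w hw => by
        rw [Subgroup.coe_inv, Perm.inv_eq_iff_eq, h1 w hw] }
  let π : K →* Abelianization K ⧸ S.map Abelianization.of :=
    (QuotientGroup.mk' _).comp Abelianization.of
  have h1 := main hD K hK (fun g => if h : g ∈ K then π ⟨g, h⟩ else 1) (fun x hx y hy => by
    simp only [dif_pos hx, dif_pos hy, dif_pos (mul_mem hx hy), ← map_mul]; rfl) m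
    (fun x hx h => by
      simp only [dif_pos hx]
      exact (QuotientGroup.eq_one_iff _).2 ⟨⟨x, hx⟩, h, rfl⟩) m [] (by simp) k hk
    (List.length_eq_zero_iff.1 (((hK k).1 hk).1.1.1 []))
  set N := Nat.card (Perm {w : List (Fin d) // w.length ≤ D})
  have h2 : res (k ^ N) {x | [] <+: x} = k ^ N := Equiv.ext fun x => res1 (by simp) (by simp)
  rw [h2, dif_pos (pow_mem hk N)] at h1
  obtain ⟨s, hs, e⟩ := (QuotientGroup.eq_one_iff _).1 h1
  have h3 : (⟨k ^ N, pow_mem hk N⟩ : K) * s⁻¹ ∈ commutator K := by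
    rw [← Abelianization.ker_of, MonoidHom.mem_ker, map_mul, map_inv, e, mul_inv_cancel]
  refine ⟨k ^ N * s.1⁻¹, ?_, fun w hw => ?_⟩
  · rw [← Subgroup.map_subtype_commutator]
    exact ⟨_, h3, rfl⟩
  · rw [Perm.mul_apply, Perm.inv_eq_iff_eq.2 (hs w hw).symm]

end Pool.Agent.Results.MP_66c699_al.Torsion
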